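import Mathlib

/-!
# Lie algebras of skew-hermitian matrices with a unitary automorphism

`V` is a complex space of matrices, closed under conjugate transposes and brackets, and invariant
under conjugation by the unitary matrix `g`.  If every element of `V` fixed by the conjugation is
central in `V`, then `V` is commutative.
-/

open Matrix
open scoped ComplexOrder

namespace Pool.Agent.N44.TIG

variable {N : ℕ}

/-- square complex matrices -/
abbrev M (N : ℕ) := Matrix (Fin N) (Fin N) ℂ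

lemma tr_eq_zero {w : M N} (h : trace (wᴴ * w) = 0) : w = 0 :=
  (Matrix.trace_conjTranspose_mul_self_eq_zero_iff).1 h

lemma bracket_aux {x w : M N} (hx : x * xᴴ = xᴴ * x) (h : x * w = w * x) :
    xᴴ * w - w * xᴴ = 0 := by
  have h2 : trace ((xᴴ * w - w * xᴴ)ᴴ * (xᴴ * w - w * xᴴ)) =
      trace ((x * w - w * x)ᴴ * (x * w - w * x)) := by
    have e1 : (xᴴ * w - w * xᴴ)ᴴ * (xᴴ * w - w * xᴴ) =
        wᴴ * (x * xᴴ) * w - wᴴ * x * w * xᴴ - x * wᴴ * xᴴ * w + x * (wᴴ * w * xᴴ) := by
      rw [conjTranspose_sub, conjTranspose_mul, conjTranspose_mul, conjTranspose_conjTranspose]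
      noncomm_ring
    have e2 : (x * w - w * x)ᴴ * (x * w - w * x) =
        wᴴ * (xᴴ * x) * w - wᴴ * xᴴ * w * x - xᴴ * wᴴ * x * w + xᴴ * (wᴴ * w * x) := by
      rw [conjTranspose_sub, conjTranspose_mul, conjTranspose_mul]
      noncomm_ring
    rw [e1, e2, hx]
    simp only [trace_add, trace_sub]
    have a1 : trace (wᴴ * x * w * xᴴ) = trace (xᴴ * wᴴ * x * w) := by
      rw [trace_mul_comm]; congr 1; noncomm_ring
    have a2 : trace (x * wᴴ * xᴴ * w) = trace (wᴴ * xᴴ * w * x) := by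
      rw [trace_mul_comm (wᴴ * xᴴ * w) x]; congr 1; noncomm_ring
    have a3 : trace (x * (wᴴ * w * xᴴ)) = trace (xᴴ * (wᴴ * w * x)) := by
      rw [trace_mul_comm x, trace_mul_comm xᴴ]
      rw [show wᴴ * w * xᴴ * x = wᴴ * w * (xᴴ * x) by noncomm_ring,
        show wᴴ * w * x * xᴴ = wᴴ * w * (x * xᴴ) by noncomm_ring, hx]
    rw [a1, a2, a3]
    ring
  apply tr_eq_zero
  rw [h2, h, sub_self, mul_zero, trace_zero]

lemma bracket_aux2 {x y w : M N} (hw : w = x * y - y * x) (h3 : xᴴ * w - w * xᴴ = 0) :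
    w = 0 := by
  apply tr_eq_zero
  have e1 : trace (wᴴ * w) = trace ((wᴴ * x - x * wᴴ) * y) := by
    have : wᴴ * w = wᴴ * (x * y) - wᴴ * (y * x) := by
      rw [← mul_sub, ← hw]
    rw [this, sub_mul, trace_sub, trace_sub]
    congr 1
    · rw [mul_assoc]
    · rw [← mul_assoc, trace_mul_comm, mul_assoc]
  have e2 : wᴴ * x - x * wᴴ = 0 := by
    have := congrArg conjTranspose h3
    rw [conjTranspose_sub, conjTranspose_mul, conjTranspose_mul, conjTranspose_conjTranspose,
      conjTranspose_zero] at this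
    exact this
  rw [e1, e2, zero_mul, trace_zero]

/-- a normal matrix which commutes with its bracket with `y` commutes with `y` -/
lemma bracket_zero {x y : M N} (hx : x * xᴴ = xᴴ * x)
    (h : x * (x * y - y * x) = (x * y - y * x) * x) : x * y = y * x :=
  sub_eq_zero.1 (bracket_aux2 rfl (bracket_aux hx h))

variable {g : M N} {V : Submodule ℂ (M N)}

/-- the iterated bracket -/
def adk (x : M N) : ℕ → M N → M N
  | 0, y => y
  | k + 1, y => x * adk x k y - adk x k y * x

lemma adk_ne {x y : M N} (hx : x * xᴴ = xᴴ * x) (h : x * y ≠ y * x) :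
    ∀ k, x * adk x k y ≠ adk x k y * x
  | 0 => h
  | k + 1 => fun h' => adk_ne hx h k (bracket_zero hx h')

lemma adk_mem (hbr : ∀ x ∈ V, ∀ y ∈ V, x * y - y * x ∈ V) {x y : M N} (hx : x ∈ V) (hy : y ∈ V) :
    ∀ k, adk x k y ∈ V
  | 0 => hy
  | k + 1 => hbr _ hx _ (adk_mem hbr hx hy k)

lemma conj_mul' (hg : gᴴ * g = 1) (x y : M N) :
    g * (x * y) * gᴴ = (g * x * gᴴ) * (g * y * gᴴ) := by
  calc g * (x * y) * gᴴ = g * x * 1 * y * gᴴ := by noncomm_ring
    _ = g * x * (gᴴ * g) * y * gᴴ := by rw [hg]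
    _ = _ := by noncomm_ring

lemma adk_eig (hg : gᴴ * g = 1) {x y : M N} {a b : ℂ} (hx : g * x * gᴴ = a • x)
    (hy : g * y * gᴴ = b • y) : ∀ k, g * adk x k y * gᴴ = (a ^ k * b) • adk x k y
  | 0 => by simpa [adk] using hy
  | k + 1 => by
    have ih := adk_eig hg hx hy k
    have e : g * adk x (k + 1) y * gᴴ =
        g * (x * adk x k y) * gᴴ - g * (adk x k y * x) * gᴴ := by
      rw [adk]; noncomm_ring
    rw [e, conj_mul' hg, conj_mul' hg, hx, ih, adk]
    simp only [smul_mul_assoc, mul_smul_comm, smul_smul, smul_sub]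
    congr 2 <;> ring

lemma norm_eig (hg : gᴴ * g = 1) {x : M N} {a : ℂ} (hx : g * x * gᴴ = a • x) (hx0 : x ≠ 0) :
    star a * a = 1 := by
  have h1 : trace ((g * x * gᴴ)ᴴ * (g * x * gᴴ)) = trace (xᴴ * x) := by
    rw [conjTranspose_mul, conjTranspose_mul, conjTranspose_conjTranspose]
    calc trace (g * (xᴴ * gᴴ) * (g * x * gᴴ)) = trace (g * (xᴴ * (gᴴ * g) * x * gᴴ)) := by
          congr 1; noncomm_ring
      _ = trace (g * (xᴴ * x * gᴴ)) := by rw [hg, mul_one]
      _ = trace (xᴴ * x * (gᴴ * g)) := by rw [trace_mul_comm]; congr 1; noncomm_ring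
      _ = trace (xᴴ * x) := by rw [hg, mul_one]
  rw [hx, conjTranspose_smul, smul_mul_assoc, mul_smul_comm, smul_smul, trace_smul,
    smul_eq_mul] at h1
  have h2 : trace (xᴴ * x) ≠ 0 := fun h => hx0 (tr_eq_zero h)
  exact mul_right_cancel₀ h2 (by rw [h1, one_mul])

/-- eigenvectors of the conjugation in `V` are normal matrices -/
lemma eig_normal (hg : gᴴ * g = 1) (hst : ∀ x ∈ V, xᴴ ∈ V)
    (hbr : ∀ x ∈ V, ∀ y ∈ V, x * y - y * x ∈ V)
    (hfix : ∀ x ∈ V, g * x * gᴴ = x → ∀ y ∈ V, x * y = y * x)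
    {x : M N} {a : ℂ} (hxV : x ∈ V) (hx : g * x * gᴴ = a • x) : x * xᴴ = xᴴ * x := by
  by_cases hx0 : x = 0
  · simp [hx0]
  have ha := norm_eig hg hx hx0
  set c := x * xᴴ - xᴴ * x with hc
  have hxs : g * xᴴ * gᴴ = star a • xᴴ := by
    have := congrArg conjTranspose hx
    rw [conjTranspose_mul, conjTranspose_mul, conjTranspose_conjTranspose,
      conjTranspose_smul] at this
    rw [← this]; noncomm_ring
  have hcV : c ∈ V := hbr _ hxV _ (hst _ hxV)
  have hcf : g * c * gᴴ = c := by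
    have e : g * c * gᴴ = g * (x * xᴴ) * gᴴ - g * (xᴴ * x) * gᴴ := by rw [hc]; noncomm_ring
    rw [e, conj_mul' hg, conj_mul' hg, hx, hxs]
    simp only [smul_mul_assoc, mul_smul_comm, smul_smul]
    rw [mul_comm a (star a), ha, one_smul, one_smul]
  have hcc : c * x = x * c := hfix c hcV hcf x hxV
  have hch : cᴴ = c := by
    rw [hc, conjTranspose_sub, conjTranspose_mul, conjTranspose_mul, conjTranspose_conjTranspose]
  have h0 : trace (cᴴ * c) = 0 := by
    rw [hch]
    have e : trace (c * c) = trace (c * x * xᴴ) - trace (c * xᴴ * x) := by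
      conv_lhs => rw [show c * c = c * (x * xᴴ - xᴴ * x) by rw [← hc]]
      rw [mul_sub, trace_sub, ← mul_assoc, ← mul_assoc]
    rw [e, hcc]
    have e2 : trace (x * c * xᴴ) = trace (c * xᴴ * x) := by
      rw [mul_assoc, trace_mul_comm]
    rw [e2, sub_self]
  have := tr_eq_zero h0
  rw [hc] at this
  exact sub_eq_zero.1 this

/-- a noncommuting pair of eigenvectors, with eigenvalues `ζ ^ a` and `ζ ^ b` -/
def Bad (g : M N) (V : Submodule ℂ (M N)) (ζ : ℂ) (a b : ℕ) : Prop :=
  ∃ x ∈ V, ∃ y ∈ V, g * x * gᴴ = (ζ ^ a) • x ∧ g * y * gᴴ = (ζ ^ b) • y ∧ x * y ≠ y * x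

lemma not_bad (hg : gᴴ * g = 1) (hst : ∀ x ∈ V, xᴴ ∈ V)
    (hbr : ∀ x ∈ V, ∀ y ∈ V, x * y - y * x ∈ V)
    (hfix : ∀ x ∈ V, g * x * gᴴ = x → ∀ y ∈ V, x * y = y * x) {ζ : ℂ} {n : ℕ} (hn : 0 < n)
    (hζ : ζ ^ n = 1) : ∀ s a b : ℕ, a + b ≤ s → ¬ Bad g V ζ a b := by
  intro s
  induction s with
  | zero =>
    rintro a b hab ⟨x, hx, y, hy, h1, h2, h3⟩
    obtain rfl : a = 0 := by omega
    rw [pow_zero, one_smul] at h1
    exact h3 (hfix x hx h1 y hy)
  | succ s ih =>
    intro a b hab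
    have key : ∀ a b : ℕ, a + b ≤ s + 1 → a ≤ b → ¬ Bad g V ζ a b := by
      rintro a b hab hle ⟨x, hx, y, hy, h1, h2, h3⟩
      rcases Nat.eq_zero_or_pos a with rfl | ha
      · rw [pow_zero, one_smul] at h1
        exact h3 (hfix x hx h1 y hy)
      · have hxn := eig_normal hg hst hbr hfix hx h1
        refine ih a (b - a) (by omega) ⟨x, hx, adk x (n - 1) y, adk_mem hbr hx hy _, h1, ?_,
          adk_ne hxn h3 _⟩
        rw [adk_eig hg h1 h2]
        congr 1
        have e1 : (ζ ^ a) ^ n = 1 := by rw [← pow_mul, mul_comm, pow_mul, hζ, one_pow]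
        have hza : ζ ^ a ≠ 0 := by
          intro h0
          rw [h0, zero_pow hn.ne'] at e1
          exact zero_ne_one e1
        have e2 : ζ ^ b = ζ ^ a * ζ ^ (b - a) := by rw [← pow_add]; congr 1; omega
        rw [e2, ← mul_assoc, ← pow_succ, show n - 1 + 1 = n by omega, e1, one_mul]
    rcases le_total a b with h | h
    · exact key a b hab h
    · rintro ⟨x, hx, y, hy, h1, h2, h3⟩
      exact key b a (by omega) h ⟨y, hy, x, hx, h2, h1, fun h => h3 h.symm⟩

/-- the conjugation as a linear map -/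
def cj (g : M N) : Module.End ℂ (M N) where
  toFun x := g * x * gᴴ
  map_add' x y := by rw [mul_add, add_mul]
  map_smul' c x := by simp

lemma root_of_ne (hg : gᴴ * g = 1) (hst : ∀ x ∈ V, xᴴ ∈ V)
    (hbr : ∀ x ∈ V, ∀ y ∈ V, x * y - y * x ∈ V)
    (hfix : ∀ x ∈ V, g * x * gᴴ = x → ∀ y ∈ V, x * y = y * x)
    {x y : M N} {a b : ℂ} (hxV : x ∈ V) (hx : g * x * gᴴ = a • x) (hy : g * y * gᴴ = b • y)
    (hne : x * y ≠ y * x) : ∃ n : ℕ, 0 < n ∧ a ^ n = 1 := by
  have hxn := eig_normal hg hst hbr hfix hxV hx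
  have hx0 : x ≠ 0 := by rintro rfl; simp at hne
  have hy0 : y ≠ 0 := by rintro rfl; simp at hne
  have ha := norm_eig hg hx hx0
  have hb := norm_eig hg hy hy0
  have ha0 : a ≠ 0 := by rintro rfl; simp at ha
  have hb0 : b ≠ 0 := by rintro rfl; simp at hb
  have hfin := Module.End.finite_hasEigenvalue (cj g)
  have hmem : ∀ k : ℕ, a ^ k * b ∈ {μ | (cj g).HasEigenvalue μ} := by
    intro k
    refine Module.End.hasEigenvalue_of_hasEigenvector (x := adk x k y) ⟨?_, ?_⟩
    · rw [Module.End.mem_eigenspace_iff]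
      exact adk_eig hg hx hy k
    · intro h0
      apply adk_ne hxn hne k
      rw [h0, mul_zero, zero_mul]
  obtain ⟨i, j, hij, he⟩ : ∃ i j : ℕ, i < j ∧ a ^ i * b = a ^ j * b := by
    by_contra hcon
    push Not at hcon
    have hinj : Function.Injective (fun k : ℕ => a ^ k * b) := by
      intro i j hij
      rcases lt_trichotomy i j with h | h | h
      · exact absurd hij (hcon i j h)
      · exact h
      · exact absurd hij.symm (hcon j i h)
    exact Set.infinite_of_injective_forall_mem hinj hmem hfin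
  refine ⟨j - i, by omega, ?_⟩
  have h1 := mul_right_cancel₀ hb0 he
  have h2 : a ^ j = a ^ i * a ^ (j - i) := by rw [← pow_add]; congr 1; omega
  rw [h2] at h1
  have h3 : a ^ i * 1 = a ^ i * a ^ (j - i) := by rw [mul_one]; exact h1
  exact (mul_left_cancel₀ (pow_ne_zero _ ha0) h3).symm

/-- eigenvectors of the conjugation in `V` commute -/
lemma eig_comm (hg : gᴴ * g = 1) (hst : ∀ x ∈ V, xᴴ ∈ V)
    (hbr : ∀ x ∈ V, ∀ y ∈ V, x * y - y * x ∈ V)
    (hfix : ∀ x ∈ V, g * x * gᴴ = x → ∀ y ∈ V, x * y = y * x)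
    {x y : M N} {a b : ℂ} (hxV : x ∈ V) (hyV : y ∈ V) (hx : g * x * gᴴ = a • x)
    (hy : g * y * gᴴ = b • y) : x * y = y * x := by
  by_contra hne
  obtain ⟨n, hn, han⟩ := root_of_ne hg hst hbr hfix hxV hx hy hne
  obtain ⟨m, hm, hbm⟩ := root_of_ne hg hst hbr hfix hyV hy hx (fun h => hne h.symm)
  have hnm : 0 < n * m := Nat.mul_pos hn hm
  have : NeZero (n * m) := ⟨hnm.ne'⟩
  have hp := Complex.isPrimitiveRoot_exp (n * m) hnm.ne'
  obtain ⟨i, _, hi⟩ := hp.eq_pow_of_pow_eq_one (ξ := a) (by rw [pow_mul, han, one_pow])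
  obtain ⟨j, _, hj⟩ := hp.eq_pow_of_pow_eq_one (ξ := b) (by rw [mul_comm, pow_mul, hbm, one_pow])
  refine not_bad hg hst hbr hfix hnm hp.pow_eq_one (i + j) i j le_rfl
    ⟨x, hxV, y, hyV, ?_, ?_, hne⟩
  · rw [hi]; exact hx
  · rw [hj]; exact hy

/-- generalised eigenvectors of the conjugation are eigenvectors -/
lemma gen_eig (hg : gᴴ * g = 1) {v : M N} {a : ℂ}
    (h : (cj g - a • (1 : Module.End ℂ (M N))) ((cj g - a • (1 : Module.End ℂ (M N))) v) = 0) :
    (cj g - a • (1 : Module.End ℂ (M N))) v = 0 := by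
  set w := (cj g - a • (1 : Module.End ℂ (M N))) v with hw
  by_contra hw0
  have h1 : g * w * gᴴ = a • w := by
    have : g * w * gᴴ - a • w = 0 := h
    exact sub_eq_zero.1 this
  have ha := norm_eig hg h1 hw0
  apply hw0
  apply tr_eq_zero
  have e0 : wᴴ = g * vᴴ * gᴴ - star a • vᴴ := by
    have : w = g * v * gᴴ - a • v := rfl
    rw [this, conjTranspose_sub, conjTranspose_mul, conjTranspose_mul,
      conjTranspose_conjTranspose, conjTranspose_smul]
    noncomm_ring
  have e1 : trace (g * vᴴ * gᴴ * w) = star a * trace (vᴴ * w) := by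
    have h2 : w = star a • (g * w * gᴴ) := by
      rw [h1, smul_smul, ha, one_smul]
    calc trace (g * vᴴ * gᴴ * w) = trace (g * vᴴ * gᴴ * (star a • (g * w * gᴴ))) := by
          rw [← h2]
      _ = star a * trace (g * vᴴ * gᴴ * (g * w * gᴴ)) := by
          rw [mul_smul_comm, trace_smul, smul_eq_mul]
      _ = star a * trace (g * (vᴴ * w) * gᴴ) := by rw [conj_mul' hg]
      _ = star a * trace (vᴴ * w) := by
          rw [trace_mul_comm, ← mul_assoc, hg, one_mul]
  rw [e0, sub_mul, trace_sub, e1, smul_mul_assoc, trace_smul, smul_eq_mul, sub_self]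

/-- **Main lemma.** -/
theorem commutative (hg : gᴴ * g = 1) (hV : ∀ x ∈ V, g * x * gᴴ ∈ V) (hst : ∀ x ∈ V, xᴴ ∈ V)
    (hbr : ∀ x ∈ V, ∀ y ∈ V, x * y - y * x ∈ V)
    (hfix : ∀ x ∈ V, g * x * gᴴ = x → ∀ y ∈ V, x * y = y * x) :
    ∀ x ∈ V, ∀ y ∈ V, x * y = y * x := by
  let T : Module.End ℂ V := (cj g).restrict (p := V) (q := V) (fun x hx => hV x hx)
  have hTv : ∀ v : V, ((T v : V) : M N) = g * (v : M N) * gᴴ := fun v => rfl
  have htop := Module.End.iSup_maxGenEigenspace_eq_top T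
  have hspan : ∀ x : V, ∀ y : V, (x : M N) * y = y * x := by
    have hgen : ∀ (a : ℂ) (v : V), v ∈ T.maxGenEigenspace a →
        g * (v : M N) * gᴴ = a • (v : M N) := by
      intro a v hv
      rw [Module.End.mem_maxGenEigenspace] at hv
      obtain ⟨k, hk⟩ := hv
      have hstep : ∀ k : ℕ, ∀ v : V, ((T - a • (1 : Module.End ℂ V)) ^ (k + 1)) v = 0 →
          (T - a • (1 : Module.End ℂ V)) v = 0 := by
        intro k
        induction k with
        | zero => intro v hv; simpa using hv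
        | succ k ih =>
          intro v hv
          rw [pow_succ, Module.End.mul_apply] at hv
          have h1 := ih _ hv
          have h2 : (cj g - a • (1 : Module.End ℂ (M N))) ((cj g - a • (1 : Module.End ℂ (M N))) (v : M N)) = 0 := by
            exact congrArg Subtype.val h1
          have h3 := gen_eig hg h2
          apply Subtype.ext
          exact h3
      have h4 : (T - a • (1 : Module.End ℂ V)) v = 0 := by
        rcases Nat.eq_zero_or_pos k with rfl | hk0
        · have : v = 0 := by simpa using hk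
          rw [this, map_zero]
        · obtain ⟨j, rfl⟩ : ∃ j, k = j + 1 := ⟨k - 1, by omega⟩
          exact hstep j v hk
      have h5 := congrArg Subtype.val h4
      have h6 : g * (v : M N) * gᴴ - a • (v : M N) = 0 := by simpa [hTv] using h5
      exact sub_eq_zero.1 h6
    have hcomm1 : ∀ (a : ℂ) (x : V), x ∈ T.maxGenEigenspace a → ∀ y : V,
        (x : M N) * y = y * x := by
      intro a x hx y
      have hy : y ∈ ⨆ μ, T.maxGenEigenspace μ := by rw [htop]; trivial
      induction hy using Submodule.iSup_induction' with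
      | mem b y hy =>
        exact eig_comm hg hst hbr hfix x.2 y.2 (hgen a x hx) (hgen b y hy)
      | zero => simp
      | add y z _ _ hy hz =>
        rw [Submodule.coe_add, mul_add, add_mul, hy, hz]
    intro x y
    have hx : x ∈ ⨆ μ, T.maxGenEigenspace μ := by rw [htop]; trivial
    induction hx using Submodule.iSup_induction' with
    | mem a x hx => exact hcomm1 a x hx y
    | zero => simp
    | add x z _ _ hx hz => rw [Submodule.coe_add, mul_add, add_mul, hx, hz]
  intro x hx y hy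
  exact hspan ⟨x, hx⟩ ⟨y, hy⟩

end Pool.Agent.N44.TIG
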