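import Mathlib
import Pool.Agent.W544.EG.MatG
import Pool.Agent.N44.TIG.Eig

/-!
# Maximal commutative subspaces of the Lie algebra of a compact matrix group
-/

open Matrix
open scoped Matrix.Norms.Frobenius

namespace Pool.Agent.N44.TIG

open Pool.Agent.W544.EG

variable {N : ℕ} {Γ : Set (Mat N)} {L t z : Submodule ℝ (Mat N)}

/-- `t` is a commutative subspace of `L` which is its own centraliser in `L` -/
structure MaxAb (L t : Submodule ℝ (Mat N)) : Prop where
  le : t ≤ L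
  comm : ∀ X ∈ t, ∀ Y ∈ t, X * Y = Y * X
  self : ∀ Z ∈ L, (∀ X ∈ t, Z * X = X * Z) → Z ∈ t

lemma exists_maxAb (L : Submodule ℝ (Mat N)) : ∃ t, MaxAb L t := by
  let S : Set (Submodule ℝ (Mat N)) := {t | t ≤ L ∧ ∀ X ∈ t, ∀ Y ∈ t, X * Y = Y * X}
  have hS : S.Nonempty := by
    refine ⟨⊥, bot_le, ?_⟩
    intro X hX Y _
    rw [Submodule.mem_bot] at hX
    rw [hX, zero_mul, mul_zero]
  obtain ⟨t, ht, hmax⟩ := WellFounded.has_min
    (wellFounded_gt : WellFounded ((· > ·) : Submodule ℝ (Mat N) → Submodule ℝ (Mat N) → Prop)) S hS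
  refine ⟨t, ht.1, ht.2, fun Z hZ hc => ?_⟩
  by_contra hZt
  apply hmax (t ⊔ Submodule.span ℝ {Z})
  · refine ⟨sup_le ht.1 ((Submodule.span_singleton_le_iff_mem _ _).2 hZ), ?_⟩
    intro X hX Y hY
    obtain ⟨a, ha, b, hb, rfl⟩ := Submodule.mem_sup.1 hX
    obtain ⟨c, hc', d, hd, rfl⟩ := Submodule.mem_sup.1 hY
    obtain ⟨p, rfl⟩ := Submodule.mem_span_singleton.1 hb
    obtain ⟨q, rfl⟩ := Submodule.mem_span_singleton.1 hd
    have h1 := ht.2 a ha c hc'
    have h2 := hc a ha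
    have h3 := hc c hc'
    simp only [mul_add, add_mul, smul_mul_assoc, mul_smul_comm, smul_add, smul_smul, h1, h2, h3]
    rw [mul_comm p q]
    abel
  · refine lt_of_le_of_ne le_sup_left fun h => hZt ?_
    rw [h]
    exact (le_sup_right : Submodule.span ℝ {Z} ≤ t ⊔ Submodule.span ℝ {Z})
      (Submodule.mem_span_singleton_self Z)

/-- the centraliser of `X` in `L` -/
def cen (L : Submodule ℝ (Mat N)) (X : Mat N) : Submodule ℝ (Mat N) where
  carrier := {Z | Z ∈ L ∧ Z * X = X * Z}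
  add_mem' := by
    rintro a b ⟨h1, h2⟩ ⟨h3, h4⟩
    exact ⟨L.add_mem h1 h3, by rw [add_mul, mul_add, h2, h4]⟩
  zero_mem' := ⟨L.zero_mem, by rw [zero_mul, mul_zero]⟩
  smul_mem' := by
    rintro c a ⟨h1, h2⟩
    exact ⟨L.smul_mem c h1, by rw [smul_mul_assoc, mul_smul_comm, h2]⟩

lemma mem_cen {X Z : Mat N} : Z ∈ cen L X ↔ Z ∈ L ∧ Z * X = X * Z := Iff.rfl

/-- the bracket with `X` on `L` -/
def adL (hbr : ∀ X ∈ L, ∀ Y ∈ L, X * Y - Y * X ∈ L) (X : L) : L →ₗ[ℝ] L where
  toFun v := ⟨X * v - v * X, hbr _ X.2 _ v.2⟩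
  map_add' a b := by
    apply Subtype.ext
    simp only [Submodule.coe_add, mul_add, add_mul]
    abel
  map_smul' c a := by
    apply Subtype.ext
    simp only [Submodule.coe_smul, mul_smul_comm, smul_mul_assoc, smul_sub, RingHom.id_apply]

lemma adL_apply (hbr : ∀ X ∈ L, ∀ Y ∈ L, X * Y - Y * X ∈ L) (X v : L) :
    ((adL hbr X v : L) : Mat N) = X * v - v * X := rfl

lemma skew_normal {X : Mat N} (h : Xᴴ = -X) : X * Xᴴ = Xᴴ * X := by
  rw [h, mul_neg, neg_mul]

/-- an injective linear map is bounded below -/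
lemma bound_below {E : Type} [NormedAddCommGroup E] [NormedSpace ℝ E] [FiniteDimensional ℝ E]
    (A : E →ₗ[ℝ] E) (R : Submodule ℝ E) (h : ∀ m ∈ R, A m = 0 → m = 0) :
    ∃ K : ℝ, 0 < K ∧ ∀ m ∈ R, ‖m‖ ≤ K * ‖A m‖ := by
  obtain ⟨K, hK, hanti⟩ := LinearMap.exists_antilipschitzWith (A.domRestrict R) (by
    rw [LinearMap.ker_eq_bot']
    rintro ⟨m, hm⟩ h'
    apply Subtype.ext
    exact h m hm h')
  refine ⟨K, by exact_mod_cast hK, fun m hm => ?_⟩
  have := hanti.le_mul_dist ⟨m, hm⟩ 0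
  simpa [dist_eq_norm] using this

/-- the derivative of a conjugation -/
lemma deriv_conj {𝔸 : Type} [NormedRing 𝔸] [NormedAlgebra ℝ 𝔸] [FiniteDimensional ℝ 𝔸]
    [StarRing 𝔸] [StarModule ℝ 𝔸] [ContinuousStar 𝔸] (Z W Y : 𝔸) : HasDerivAt (fun s : ℝ => NormedSpace.exp (s • Z) * W *
      NormedSpace.exp (s • (-Z)) * Y) ((Z * W - W * Z) * Y) 0 := by
  have h1 := hasDerivAt_exp_smul Z 0
  have h2 := hasDerivAt_exp_smul (-Z) 0
  rw [zero_smul, exp_zero', one_mul] at h1 h2
  have h4 := ((h1.mul_const W).mul h2).mul_const Y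
  refine HasDerivAt.congr_deriv h4 ?_
  rw [zero_smul, zero_smul, exp_zero', one_mul, mul_one, mul_neg, sub_eq_add_neg]

/-- regular elements -/
lemma exists_regular (hsk : ∀ X ∈ L, Xᴴ = -X) (hbr : ∀ X ∈ L, ∀ Y ∈ L, X * Y - Y * X ∈ L)
    (ht : MaxAb L t) : ∃ X ∈ t, ∀ Z ∈ L, Z * X = X * Z → Z ∈ t := by
  obtain ⟨_, ⟨X, hXt, rfl⟩, hmin⟩ := WellFounded.has_min
    (wellFounded_lt : WellFounded ((· < ·) : Submodule ℝ (Mat N) → Submodule ℝ (Mat N) → Prop))
    {c | ∃ X ∈ t, c = cen L X} ⟨cen L 0, 0, t.zero_mem, rfl⟩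
  refine ⟨X, hXt, fun Z hZ hZX => ?_⟩
  by_contra hZt
  obtain ⟨Y, hYt, hZY⟩ : ∃ Y ∈ t, Z * Y ≠ Y * Z := by
    by_contra hcon
    push Not at hcon
    exact hZt (ht.self Z hZ hcon)
  have hXL := ht.le hXt
  have hYL := ht.le hYt
  have hXY := ht.comm X hXt Y hYt
  set A := adL hbr ⟨X, hXL⟩ with hA
  set B := adL hbr ⟨Y, hYL⟩ with hB
  have hAB : ∀ v, A (B v) = B (A v) := by
    intro v
    apply Subtype.ext
    show X * (Y * v - v * Y) - (Y * v - v * Y) * X = Y * (X * v - v * X) - (X * v - v * X) * Y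
    have e1 : X * (Y * (v : Mat N)) = Y * (X * v) := by rw [← mul_assoc, hXY, mul_assoc]
    have e2 : (v : Mat N) * Y * X = v * X * Y := by rw [mul_assoc, ← hXY, mul_assoc]
    rw [mul_sub, sub_mul, mul_sub, sub_mul, e1, e2]
    noncomm_ring
  have hdis : Disjoint (LinearMap.range A) (LinearMap.ker A) := by
    rw [Submodule.disjoint_def]
    rintro _ ⟨w, rfl⟩ hw
    have h1 : X * (X * w - w * X) - (X * (w : Mat N) - w * X) * X = 0 :=
      congrArg Subtype.val (LinearMap.mem_ker.1 hw)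
    have h2 := bracket_zero (skew_normal (hsk X hXL)) (sub_eq_zero.1 h1)
    apply Subtype.ext
    show X * w - w * X = 0
    rw [h2, sub_self]
  have htop : LinearMap.range A ⊔ LinearMap.ker A = ⊤ :=
    Submodule.eq_top_of_disjoint _ _ (LinearMap.finrank_range_add_finrank_ker A).ge hdis
  obtain ⟨K, hK, hbd⟩ := bound_below A (LinearMap.range A) (fun m hm h =>
    (Submodule.disjoint_def.1 hdis) m hm h)
  have hBn : ∀ v : L, ‖B v‖ ≤ 2 * ‖Y‖ * ‖v‖ := by
    intro v
    show ‖Y * (v : Mat N) - v * Y‖ ≤ 2 * ‖Y‖ * ‖(v : Mat N)‖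
    refine (norm_sub_le _ _).trans ?_
    have h1 := norm_mul_le Y (v : Mat N)
    have h2 := norm_mul_le (v : Mat N) Y
    nlinarith
  have hK0 : (0 : ℝ) < K := hK
  set ε : ℝ := 1 / (K * (2 * ‖Y‖) + 1) with hε
  have hpos : 0 < (K : ℝ) * (2 * ‖Y‖) + 1 := by positivity
  have hε0 : 0 < ε := by positivity
  have hε1 : K * (ε * (2 * ‖Y‖)) < 1 := by
    have e : K * (ε * (2 * ‖Y‖)) = (K * (2 * ‖Y‖)) / (K * (2 * ‖Y‖) + 1) := by
      rw [hε]; ring
    rw [e, div_lt_one hpos]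
    linarith
  apply hmin (cen L (X + ε • Y)) ⟨X + ε • Y, t.add_mem hXt (t.smul_mem _ hYt), rfl⟩
  refine lt_of_le_of_ne ?_ ?_
  · rintro v ⟨hv, hv2⟩
    refine ⟨hv, ?_⟩
    set v' : L := ⟨v, hv⟩ with hv'
    have hAv : A v' + ε • B v' = 0 := by
      apply Subtype.ext
      show (X * v - v * X) + ε • (Y * v - v * Y) = 0
      have e : (X * v - v * X) + ε • (Y * v - v * Y) =
          (X + ε • Y) * v - v * (X + ε • Y) := by
        rw [add_mul, mul_add, smul_sub, smul_mul_assoc, mul_smul_comm]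
        abel
      rw [e, hv2, sub_self]
    obtain ⟨m, hm, k, hk, hmk⟩ := Submodule.mem_sup.1 (htop ▸ Submodule.mem_top : v' ∈ _)
    have hAk : A k = 0 := LinearMap.mem_ker.1 hk
    have h1 : A m + ε • B m = -(ε • B k) := by
      rw [← hmk, map_add, map_add, hAk, add_zero, smul_add] at hAv
      rw [eq_neg_iff_add_eq_zero, ← hAv]
      abel
    have h2 : A m + ε • B m ∈ LinearMap.range A := by
      refine Submodule.add_mem _ ⟨m, rfl⟩ (Submodule.smul_mem _ _ ?_)
      obtain ⟨w, rfl⟩ := hm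
      exact ⟨B w, hAB w⟩
    have h3 : A m + ε • B m ∈ LinearMap.ker A := by
      rw [h1]
      refine Submodule.neg_mem _ (Submodule.smul_mem _ _ ?_)
      rw [LinearMap.mem_ker, hAB, hAk, map_zero]
    have h4 := (Submodule.disjoint_def.1 hdis) _ h2 h3
    have h5 : A m = -(ε • B m) := eq_neg_of_add_eq_zero_left h4
    have h6 : ‖m‖ ≤ K * (ε * (2 * ‖Y‖)) * ‖m‖ := by
      calc ‖m‖ ≤ K * ‖A m‖ := hbd m hm
        _ = K * (ε * ‖B m‖) := by
            rw [h5, norm_neg, norm_smul, Real.norm_eq_abs, abs_of_pos hε0]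
        _ ≤ K * (ε * (2 * ‖Y‖ * ‖m‖)) := by
            have := hBn m
            gcongr
        _ = _ := by ring
    have h7 : ‖m‖ = 0 := by
      by_contra hne
      have hpos' : 0 < ‖m‖ := lt_of_le_of_ne (norm_nonneg _) (Ne.symm hne)
      nlinarith
    have h8 : m = 0 := norm_eq_zero.1 h7
    have h9 : A v' = 0 := by rw [← hmk, h8, zero_add, hAk]
    have h10 : X * v - v * X = 0 := congrArg Subtype.val h9
    exact (sub_eq_zero.1 h10).symm
  · intro h
    have h1 : Z ∈ cen L (X + ε • Y) := by rw [h]; exact ⟨hZ, hZX⟩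
    have h2 := h1.2
    rw [mul_add, add_mul, hZX, add_right_inj, mul_smul_comm, smul_mul_assoc] at h2
    exact hZY (smul_right_injective _ hε0.ne' h2)

/-- the orbit of `X` under `Γ` meets the centraliser of `Y` -/
lemma exists_conj_comm (hG : IsG Γ L) (hbr : ∀ X ∈ L, ∀ Y ∈ L, X * Y - Y * X ∈ L)
    {X Y : Mat N} (hX : X ∈ L) (hY : Y ∈ L) :
    ∃ h ∈ Γ, (h * X * star h) * Y = Y * (h * X * star h) := by
  have hcont : Continuous fun h : Mat N => (trace (h * X * star h * Y)).re := by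
    have : Continuous fun h : Mat N => h * X * star h * Y :=
      ((continuous_id.mul continuous_const).mul continuous_star).mul continuous_const
    exact Complex.continuous_re.comp this.matrix_trace
  obtain ⟨h, hh, hmax⟩ := hG.compact.exists_isMaxOn ⟨1, hG.one⟩ hcont.continuousOn
  refine ⟨h, hh, ?_⟩
  set W := h * X * star h with hW
  have hWL : W ∈ L := hG.conj_mem hh hX
  set Z := W * Y - Y * W with hZ
  have hZL : Z ∈ L := hbr _ hWL _ hY
  have hder : HasDerivAt (fun s : ℝ => (trace (NormedSpace.exp (s • Z) * W *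
      NormedSpace.exp (s • (-Z)) * Y)).re) ((trace ((Z * W - W * Z) * Y)).re) 0 := by
    have h3 : HasDerivAt (fun s : ℝ => NormedSpace.exp (s • Z) * W * NormedSpace.exp (s • (-Z)) * Y)
        ((Z * W - W * Z) * Y) 0 := deriv_conj (𝔸 := Mat N) Z W Y
    let T : Mat N →L[ℝ] ℝ := LinearMap.toContinuousLinearMap
      (Complex.reLm ∘ₗ (Matrix.traceLinearMap (Fin N) ℝ ℂ))
    exact (T.hasFDerivAt.comp_hasDerivAt (0 : ℝ) h3)
  have hloc : IsLocalMax (fun s : ℝ => (trace (NormedSpace.exp (s • Z) * W *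
      NormedSpace.exp (s • (-Z)) * Y)).re) 0 := by
    refine Filter.Eventually.of_forall fun s => ?_
    have hmem : NormedSpace.exp (s • Z) * h ∈ Γ := hG.mul _ ((hG.lie Z).1 hZL s) _ hh
    have h1 := hmax hmem
    have hstar : star (NormedSpace.exp (s • Z)) = NormedSpace.exp (-(s • Z)) :=
      hG.star_exp (L.smul_mem s hZL)
    have e : NormedSpace.exp (s • Z) * h * X * star (NormedSpace.exp (s • Z) * h) * Y =
        NormedSpace.exp (s • Z) * W * NormedSpace.exp (s • (-Z)) * Y := by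
      rw [star_mul, hstar, hW, smul_neg]
      noncomm_ring
    have h1' : (trace (NormedSpace.exp (s • Z) * h * X * star (NormedSpace.exp (s • Z) * h) *
        Y)).re ≤ (trace (h * X * star h * Y)).re := h1
    rw [e] at h1'
    have e0 : NormedSpace.exp ((0 : ℝ) • Z) * W * NormedSpace.exp ((0 : ℝ) • (-Z)) * Y =
        h * X * star h * Y := by
      rw [zero_smul, zero_smul]
      have : NormedSpace.exp (0 : Mat N) = 1 := exp_zero' (𝔸 := Mat N)
      rw [this, one_mul, mul_one]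
    show _ ≤ (trace (NormedSpace.exp ((0 : ℝ) • Z) * W * NormedSpace.exp ((0 : ℝ) • (-Z)) *
      Y)).re
    rw [e0]
    exact h1'
  have h0 := hloc.hasDerivAt_eq_zero hder
  have e1 : trace ((Z * W - W * Z) * Y) = trace (Z * Z) := by
    have : Z * Z = Z * (W * Y) - Z * (Y * W) := by rw [← mul_sub, ← hZ]
    rw [this, sub_mul, trace_sub, trace_sub]
    congr 1
    · rw [mul_assoc]
    · rw [mul_assoc, trace_mul_comm, mul_assoc]
  have hZs : Zᴴ = -Z := hG.skew hZL
  have e2 : ‖Z‖ ^ 2 = 0 := by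
    rw [fro_sq, hZs, neg_mul, trace_neg, Complex.neg_re, ← e1, h0, neg_zero]
  have e3 : Z = 0 := by
    rw [sq_eq_zero_iff, norm_eq_zero] at e2
    exact e2
  rw [hZ] at e3
  exact sub_eq_zero.1 e3

lemma star_mul_cancel (hG : IsG Γ L) {h : Mat N} (hh : h ∈ Γ) (W : Mat N) :
    star h * (h * W * star h) * h = W := by
  have := hG.sm h hh
  calc star h * (h * W * star h) * h = (star h * h) * W * (star h * h) := by noncomm_ring
    _ = W := by rw [this, one_mul, mul_one]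

lemma star_mul_cancel' (hG : IsG Γ L) {h : Mat N} (hh : h ∈ Γ) (W : Mat N) :
    h * (star h * W * h) * star h = W := by
  have := hG.ms h hh
  calc h * (star h * W * h) * star h = (h * star h) * W * (h * star h) := by noncomm_ring
    _ = W := by rw [this, one_mul, mul_one]

/-- maximal commutative subspaces are conjugate -/
lemma maxAb_conj (hG : IsG Γ L) (hbr : ∀ X ∈ L, ∀ Y ∈ L, X * Y - Y * X ∈ L)
    (ht : MaxAb L t) (hz : MaxAb L z) :
    ∃ h ∈ Γ, (∀ W ∈ z, star h * W * h ∈ t) ∧ ∀ W ∈ t, h * W * star h ∈ z := by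
  have hsk : ∀ X ∈ L, Xᴴ = -X := fun X hX => hG.skew hX
  obtain ⟨X, hX, hXr⟩ := exists_regular hsk hbr ht
  obtain ⟨Y, hY, hYr⟩ := exists_regular hsk hbr hz
  obtain ⟨h, hh, hc⟩ := exists_conj_comm hG hbr (ht.le hX) (hz.le hY)
  have hXz : h * X * star h ∈ z := hYr _ (hG.conj_mem hh (ht.le hX)) hc
  have hcmul : ∀ A B : Mat N, star h * (A * B) * h = (star h * A * h) * (star h * B * h) := by
    intro A B
    have := hG.ms h hh
    calc star h * (A * B) * h = star h * A * 1 * B * h := by noncomm_ring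
      _ = star h * A * (h * star h) * B * h := by rw [this]
      _ = _ := by noncomm_ring
  have hcmul' : ∀ A B : Mat N, h * (A * B) * star h = (h * A * star h) * (h * B * star h) := by
    intro A B
    have := hG.sm h hh
    calc h * (A * B) * star h = h * A * 1 * B * star h := by noncomm_ring
      _ = h * A * (star h * h) * B * star h := by rw [this]
      _ = _ := by noncomm_ring
  have h1 : ∀ W ∈ z, star h * W * h ∈ t := by
    intro W hW
    apply hXr
    · have := hG.conj_mem (hG.st h hh) (hz.le hW)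
      rwa [star_star] at this
    · have h2 := hz.comm _ hW _ hXz
      have h3 : star h * (W * (h * X * star h)) * h = star h * ((h * X * star h) * W) * h := by
        rw [h2]
      rw [hcmul W, hcmul (h * X * star h), star_mul_cancel hG hh] at h3
      exact h3
  refine ⟨h, hh, h1, fun W hW => ?_⟩
  apply hz.self _ (hG.conj_mem hh (ht.le hW))
  intro U hU
  have h2 := ht.comm _ hW _ (h1 U hU)
  have h3 : h * (W * (star h * U * h)) * star h = h * ((star h * U * h) * W) * star h := by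
    rw [h2]
  rw [hcmul' W, hcmul' (star h * U * h), star_mul_cancel' hG hh] at h3
  exact h3

/-- the complex span of a real subspace of skew-hermitian matrices -/
def cpx (z : Submodule ℝ (Mat N)) : Submodule ℂ (Mat N) where
  carrier := {x | ∃ a ∈ z, ∃ b ∈ z, x = a + Complex.I • b}
  add_mem' := by
    rintro _ _ ⟨a, ha, b, hb, rfl⟩ ⟨c, hc, d, hd, rfl⟩
    refine ⟨a + c, z.add_mem ha hc, b + d, z.add_mem hb hd, ?_⟩
    rw [smul_add]; abel
  zero_mem' := ⟨0, z.zero_mem, 0, z.zero_mem, by simp⟩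
  smul_mem' := by
    rintro w _ ⟨a, ha, b, hb, rfl⟩
    refine ⟨w.re • a - w.im • b, z.sub_mem (z.smul_mem _ ha) (z.smul_mem _ hb),
      w.im • a + w.re • b, z.add_mem (z.smul_mem _ ha) (z.smul_mem _ hb), ?_⟩
    ext i j
    simp only [Matrix.smul_apply, Matrix.add_apply, Matrix.sub_apply, smul_eq_mul,
      Complex.real_smul]
    apply Complex.ext <;> simp <;> ring

lemma mem_cpx {x : Mat N} : x ∈ cpx z ↔ ∃ a ∈ z, ∃ b ∈ z, x = a + Complex.I • b := Iff.rfl

lemma skew_zero {p q : Mat N} (hp : pᴴ = -p) (hq : qᴴ = -q) (h : p + Complex.I • q = 0) :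
    p = 0 ∧ q = 0 := by
  have h1 : pᴴ + (Complex.I • q)ᴴ = 0 := by
    rw [← conjTranspose_add, h, conjTranspose_zero]
  rw [conjTranspose_smul, hp, hq] at h1
  have h2 : -p + Complex.I • q = 0 := by
    have e : star Complex.I = -Complex.I := Complex.conj_I
    rw [e, neg_smul, smul_neg, neg_neg] at h1
    exact h1
  have h3 : p = 0 := by
    have h4 : p + p = 0 := by
      have : p + p = (p + Complex.I • q) - (-p + Complex.I • q) := by abel
      rw [this, h, h2, sub_zero]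
    have h5 : (2 : ℂ) • p = 0 := by rw [two_smul]; exact h4
    exact (smul_eq_zero.1 h5).resolve_left two_ne_zero
  refine ⟨h3, ?_⟩
  rw [h3, zero_add] at h
  exact (smul_eq_zero.1 h).resolve_left Complex.I_ne_zero

/-- every element of the group normalises a maximal commutative subspace -/
lemma exists_stable (hG : IsG Γ L) (hbr : ∀ X ∈ L, ∀ Y ∈ L, X * Y - Y * X ∈ L)
    {g : Mat N} (hg : g ∈ Γ) :
    ∃ z, MaxAb L z ∧ ∀ W ∈ z, g * W * star g ∈ z ∧ star g * W * g ∈ z := by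
  have hsk : ∀ X ∈ L, Xᴴ = -X := fun X hX => hG.skew hX
  let Lg : Submodule ℝ (Mat N) :=
    { carrier := {X | X ∈ L ∧ g * X * star g = X}
      add_mem' := by
        rintro a b ⟨h1, h2⟩ ⟨h3, h4⟩
        exact ⟨L.add_mem h1 h3, by rw [mul_add, add_mul, h2, h4]⟩
      zero_mem' := ⟨L.zero_mem, by simp⟩
      smul_mem' := by
        rintro c a ⟨h1, h2⟩
        exact ⟨L.smul_mem c h1, by rw [mul_smul_comm, smul_mul_assoc, h2]⟩ }
  obtain ⟨s, hs⟩ := exists_maxAb Lg
  let z : Submodule ℝ (Mat N) :=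
    { carrier := {Z | Z ∈ L ∧ ∀ X ∈ s, Z * X = X * Z}
      add_mem' := by
        rintro a b ⟨h1, h2⟩ ⟨h3, h4⟩
        exact ⟨L.add_mem h1 h3, fun X hX => by rw [mul_add, add_mul, h2 X hX, h4 X hX]⟩
      zero_mem' := ⟨L.zero_mem, by simp⟩
      smul_mem' := by
        rintro c a ⟨h1, h2⟩
        exact ⟨L.smul_mem c h1, fun X hX => by rw [mul_smul_comm, smul_mul_assoc, h2 X hX]⟩ }
  have hzL : ∀ Z ∈ z, Z ∈ L := fun Z hZ => hZ.1
  have hsg : ∀ X ∈ s, g * X * star g = X := fun X hX => (hs.le hX).2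
  have hsL : ∀ X ∈ s, X ∈ L := fun X hX => (hs.le hX).1
  have hgg : gᴴ * g = 1 := hG.sm g hg
  have hzg : ∀ Z ∈ z, g * Z * star g ∈ z := by
    rintro Z ⟨h1, h2⟩
    refine ⟨hG.conj_mem hg h1, fun X hX => ?_⟩
    have h3 := congrArg (fun A => g * A * gᴴ) (h2 X hX)
    simp only [conj_mul' hgg] at h3
    have h4 : g * X * gᴴ = X := hsg X hX
    rw [h4] at h3
    exact h3
  have hggs : (gᴴ)ᴴ * gᴴ = 1 := by rw [conjTranspose_conjTranspose]; exact hG.ms g hg
  have hzg' : ∀ Z ∈ z, star g * Z * g ∈ z := by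
    rintro Z ⟨h1, h2⟩
    refine ⟨?_, fun X hX => ?_⟩
    · have := hG.conj_mem (hG.st g hg) h1
      rwa [star_star] at this
    · have h4 : gᴴ * X * g = X := by
        conv_lhs => rw [← hsg X hX]
        exact star_mul_cancel hG hg X
      have h3 : gᴴ * (Z * X) * (gᴴ)ᴴ = gᴴ * (X * Z) * (gᴴ)ᴴ := by rw [h2 X hX]
      rw [conj_mul' hggs, conj_mul' hggs, conjTranspose_conjTranspose, h4] at h3
      exact h3
  have hzbr : ∀ X ∈ z, ∀ Y ∈ z, X * Y - Y * X ∈ z := by
    rintro X ⟨h1, h2⟩ Y ⟨h3, h4⟩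
    refine ⟨hbr X h1 Y h3, fun S hS => ?_⟩
    have a1 := h2 S hS
    have a2 := h4 S hS
    have e1 : X * Y * S = S * (X * Y) := by rw [mul_assoc, a2, ← mul_assoc, a1, mul_assoc]
    have e2 : Y * X * S = S * (Y * X) := by rw [mul_assoc, a1, ← mul_assoc, a2, mul_assoc]
    rw [sub_mul, mul_sub, e1, e2]
  -- fixed elements of `z` lie in `s`
  have hfixz : ∀ Z ∈ z, g * Z * star g = Z → Z ∈ s := by
    rintro Z ⟨h1, h2⟩ h3
    exact hs.self Z ⟨h1, h3⟩ h2
  have hcomm : ∀ x ∈ cpx z, ∀ y ∈ cpx z, x * y = y * x := by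
    refine commutative (g := g) hgg ?_ ?_ ?_ ?_
    · rintro _ ⟨a, ha, b, hb, rfl⟩
      refine ⟨_, hzg a ha, _, hzg b hb, ?_⟩
      rw [mul_add, add_mul, mul_smul_comm, smul_mul_assoc]
      rfl
    · rintro _ ⟨a, ha, b, hb, rfl⟩
      refine ⟨-a, z.neg_mem ha, b, hb, ?_⟩
      have e : star Complex.I = -Complex.I := Complex.conj_I
      rw [conjTranspose_add, conjTranspose_smul, hsk a (hzL a ha), hsk b (hzL b hb), e, neg_smul,
        smul_neg, neg_neg]
    · rintro _ ⟨a, ha, b, hb, rfl⟩ _ ⟨c, hc, d, hd, rfl⟩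
      refine ⟨(a * c - c * a) - (b * d - d * b), z.sub_mem (hzbr a ha c hc) (hzbr b hb d hd),
        (a * d - d * a) + (b * c - c * b), z.add_mem (hzbr a ha d hd) (hzbr b hb c hc), ?_⟩
      simp only [mul_add, add_mul, smul_mul_assoc, mul_smul_comm, smul_add, smul_sub, smul_smul,
        Complex.I_mul_I, neg_smul, one_smul]
      abel
    · rintro _ ⟨a, ha, b, hb, rfl⟩ hfix _ ⟨c, hc, d, hd, rfl⟩
      have h1 : (g * a * star g - a) + Complex.I • (g * b * star g - b) = 0 := by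
        have e : (g * a * star g - a) + Complex.I • (g * b * star g - b) =
            g * (a + Complex.I • b) * gᴴ - (a + Complex.I • b) := by
          rw [mul_add, add_mul, mul_smul_comm, smul_mul_assoc, smul_sub, star_eq_conjTranspose]
          abel
        rw [e, hfix, sub_self]
      have h2 := skew_zero (hsk _ (L.sub_mem (hG.conj_mem hg (hzL a ha)) (hzL a ha)))
        (hsk _ (L.sub_mem (hG.conj_mem hg (hzL b hb)) (hzL b hb))) h1
      have ha' := hfixz a ha (sub_eq_zero.1 h2.1)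
      have hb' := hfixz b hb (sub_eq_zero.1 h2.2)
      simp only [mul_add, add_mul, smul_mul_assoc, mul_smul_comm, smul_add, hc.2 a ha', hc.2 b hb',
        hd.2 a ha', hd.2 b hb']
      abel
  have hsz : ∀ X ∈ s, X ∈ z := fun X hX => ⟨hsL X hX, fun Y hY => hs.comm X hX Y hY⟩
  refine ⟨z, ⟨fun Z hZ => hZ.1, ?_, ?_⟩, fun W hW => ⟨hzg W hW, hzg' W hW⟩⟩
  · intro X hX Y hY
    exact hcomm X ⟨X, hX, 0, z.zero_mem, by simp⟩ Y ⟨Y, hY, 0, z.zero_mem, by simp⟩
  · intro Z hZ hc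
    exact ⟨hZ, fun X hX => hc X (hsz X hX)⟩

end Pool.Agent.N44.TIG
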