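import Mathlib
import Pool.Agent.R557.KO.Main
import Pool.Agent.W544.EG.Exists
import Pool.Agent.N44.TIG.Tor

/-!
# Topological invariable generation of compact groups
-/

open Matrix
open scoped Matrix.Norms.Frobenius

namespace Pool.Agent.N44.TIG

open Pool.Agent.W544.EG

/-- Jordan: a proper subgroup of a finite group misses some conjugacy class -/
lemma jordan {F : Type*} [Group F] [Finite F] (K : Subgroup F)
    (h : ∀ x : F, ∃ y : F, y * x * y⁻¹ ∈ K) : K = ⊤ := by
  classical
  by_contra hK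
  have := Fintype.ofFinite F
  have := Fintype.ofFinite (F ⧸ K)
  have := fun g : F => Fintype.ofFinite (MulAction.fixedBy (F ⧸ K) g)
  have := Fintype.ofFinite (Quotient (MulAction.orbitRel F (F ⧸ K)))
  have hb := MulAction.sum_card_fixedBy_eq_card_orbits_mul_card_group F (F ⧸ K)
  have h1 : Fintype.card (Quotient (MulAction.orbitRel F (F ⧸ K))) = 1 := by
    rw [Fintype.card_eq_one_iff]
    refine ⟨Quotient.mk _ ((1 : F) : F ⧸ K), fun q => ?_⟩
    induction q using Quotient.inductionOn with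
    | h a =>
      apply Quotient.sound
      exact MulAction.exists_smul_eq F _ a
  rw [h1, one_mul] at hb
  have h2 : ∀ g : F, 1 ≤ Fintype.card (MulAction.fixedBy (F ⧸ K) g) := by
    intro g
    obtain ⟨y, hy⟩ := h g
    have : Nonempty (MulAction.fixedBy (F ⧸ K) g) := by
      refine ⟨⟨((y⁻¹ : F) : F ⧸ K), ?_⟩⟩
      rw [MulAction.mem_fixedBy]
      show ((g * y⁻¹ : F) : F ⧸ K) = ((y⁻¹ : F) : F ⧸ K)
      symm
      rw [QuotientGroup.eq, inv_inv, ← mul_assoc]
      exact hy
    exact Fintype.card_pos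
  have h3 : 1 < Fintype.card (MulAction.fixedBy (F ⧸ K) (1 : F)) := by
    obtain ⟨x, hx⟩ : ∃ x, x ∉ K := by
      by_contra hcon
      push Not at hcon
      exact hK (by rw [eq_top_iff]; exact fun x _ => hcon x)
    rw [Fintype.one_lt_card_iff]
    refine ⟨⟨((1 : F) : F ⧸ K), by rw [MulAction.mem_fixedBy, one_smul]⟩,
      ⟨(x : F ⧸ K), by rw [MulAction.mem_fixedBy, one_smul]⟩, ?_⟩
    intro he
    have he' := congrArg Subtype.val he
    rw [QuotientGroup.eq, inv_one, one_mul] at he'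
    exact hx he'
  have h4 : ∑ _g : F, 1 < ∑ g : F, Fintype.card (MulAction.fixedBy (F ⧸ K) g) :=
    Finset.sum_lt_sum (fun g _ => h2 g) ⟨1, Finset.mem_univ _, h3⟩
  rw [hb] at h4
  simp at h4

variable {N : ℕ}

lemma exists_lie {G : Subgroup (unitaryGroup (Fin N) ℂ)}
    (hc : IsClosed (G : Set (unitaryGroup (Fin N) ℂ))) :
    ∃ L : Submodule ℝ (Mat N), (L : Set (Mat N)) = LieAlg G := by
  refine ⟨{ carrier := LieAlg G, add_mem' := ?_, zero_mem' := ?_, smul_mem' := ?_ }, rfl⟩
  · intro X Y hX hY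
    exact Pool.Agent.W345.EGT.mem_of_lat (Pool.LatH472.CST1 (Fin N) G hc X
      (Pool.Agent.W345.EGT.mem_lat hX) Y (Pool.Agent.W345.EGT.mem_lat hY)).1
  · intro t
    refine ⟨1, G.one_mem, ?_⟩
    rw [smul_zero]
    have h0 : NormedSpace.exp (0 : Mat N) = 1 := exp_zero' (𝔸 := Mat N)
    rw [h0]
    rfl
  · intro c X hX t
    obtain ⟨u, hu, hue⟩ := hX (t * c)
    exact ⟨u, hu, by rw [hue, mul_smul]⟩

/-- a connected group with a commutative Lie algebra is commutative -/
lemma comm_of_lie {Γ : Set (Mat N)} {L : Submodule ℝ (Mat N)} (hG : IsG Γ L)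
    (hc : IsPreconnected Γ) (hL : ∀ X ∈ L, ∀ Y ∈ L, X * Y = Y * X) :
    ∀ a ∈ Γ, ∀ b ∈ Γ, a * b = b * a := by
  obtain ⟨n, hn⟩ := generate hG hc one_pos
  intro a ha b hb
  obtain ⟨l, _, hl, rfl⟩ := hn a ha
  obtain ⟨l', _, hl', rfl⟩ := hn b hb
  have h1 : ∀ X ∈ l, ∀ Y ∈ l', Commute (NormedSpace.exp X) (NormedSpace.exp Y) := by
    intro X hX Y hY
    have h2 : Commute X Y := hL X (hl X hX).1 Y (hl' Y hY).1
    exact (exp_commute (𝔸 := Mat N) (exp_commute (𝔸 := Mat N) h2).symm).symm
  refine Commute.list_prod_left _ _ ?_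
  intro x hx
  obtain ⟨X, hX, rfl⟩ := List.mem_map.1 hx
  refine Commute.list_prod_right _ _ ?_
  intro y hy
  obtain ⟨Y, hY, rfl⟩ := List.mem_map.1 hy
  exact h1 X hX Y hY

/-- a closed subgroup of `U(N)` which contains a connected noncommutative subgroup has a proper
closed subgroup which meets every conjugacy class -/
theorem exists_proper (Δ Δ₀ : Subgroup (unitaryGroup (Fin N) ℂ))
    (hc : IsClosed (Δ : Set (unitaryGroup (Fin N) ℂ)))
    (hc₀ : IsClosed (Δ₀ : Set (unitaryGroup (Fin N) ℂ)))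
    (hconn : IsConnected (Δ₀ : Set (unitaryGroup (Fin N) ℂ))) (hle : Δ₀ ≤ Δ)
    (hna : ∃ a ∈ Δ₀, ∃ b ∈ Δ₀, a * b ≠ b * a) :
    ∃ H : Subgroup (unitaryGroup (Fin N) ℂ), IsClosed (H : Set (unitaryGroup (Fin N) ℂ)) ∧
      (∀ x ∈ Δ, ∃ y ∈ Δ, y * x * y⁻¹ ∈ H) ∧ ∃ x ∈ Δ, x ∉ H := by
  obtain ⟨L, hL⟩ := exists_lie hc
  obtain ⟨L₀, hL₀⟩ := exists_lie hc₀
  have hG := isG hc hL
  have hG₀ := isG hc₀ hL₀
  have hLL : ∀ X ∈ L₀, X ∈ L := by
    intro X hX
    have h1 : X ∈ LieAlg Δ₀ := by rw [← hL₀]; exact hX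
    have h2 : X ∈ LieAlg Δ := fun t => by
      obtain ⟨u, hu, he⟩ := h1 t
      exact ⟨u, hle hu, he⟩
    rw [← hL] at h2
    exact h2
  have hInvL : Inv (Gs Δ) L := fun g hg X hX => hG.conj_mem hg hX
  have hbr : ∀ X ∈ L, ∀ Y ∈ L, X * Y - Y * X ∈ L := fun X hX Y hY =>
    bracket_mem hG hInvL hX hY
  have hnL : ¬ ∀ X ∈ L, ∀ Y ∈ L, X * Y = Y * X := by
    intro hcomm
    obtain ⟨a, ha, b, hb, hab⟩ := hna
    apply hab
    apply Subtype.ext
    exact comm_of_lie hG₀ (Gs_conn hconn) (fun X hX Y hY => hcomm X (hLL X hX) Y (hLL Y hY))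
      _ ⟨a, ha, rfl⟩ _ ⟨b, hb, rfl⟩
  obtain ⟨t, ht⟩ := exists_maxAb L
  let H : Subgroup (unitaryGroup (Fin N) ℂ) :=
    { carrier := {u | ∀ W ∈ t, (u : Mat N) * W * star (u : Mat N) ∈ t ∧
        star (u : Mat N) * W * (u : Mat N) ∈ t}
      one_mem' := by
        intro W hW
        have e : ((1 : unitaryGroup (Fin N) ℂ) : Mat N) = 1 := rfl
        rw [e, star_one, one_mul, mul_one]
        exact ⟨hW, hW⟩
      mul_mem' := by
        intro u v hu hv W hW
        have e : ((u * v : unitaryGroup (Fin N) ℂ) : Mat N) = (u : Mat N) * (v : Mat N) := rfl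
        rw [e, star_mul]
        refine ⟨?_, ?_⟩
        · have := (hu _ (hv W hW).1).1
          have e2 : (u : Mat N) * (v : Mat N) * W * (star (v : Mat N) * star (u : Mat N)) =
              (u : Mat N) * ((v : Mat N) * W * star (v : Mat N)) * star (u : Mat N) := by
            simp only [Matrix.mul_assoc]
          rw [e2]
          exact this
        · have := (hv _ (hu W hW).2).2
          have e2 : star (v : Mat N) * star (u : Mat N) * W * ((u : Mat N) * (v : Mat N)) =
              star (v : Mat N) * (star (u : Mat N) * W * (u : Mat N)) * (v : Mat N) := by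
            simp only [Matrix.mul_assoc]
          rw [e2]
          exact this
      inv_mem' := by
        intro u hu W hW
        have e : ((u⁻¹ : unitaryGroup (Fin N) ℂ) : Mat N) = star (u : Mat N) := rfl
        rw [e, star_star]
        exact ⟨(hu W hW).2, (hu W hW).1⟩ }
  have hHmem : ∀ u : unitaryGroup (Fin N) ℂ, u ∈ H ↔ ∀ W ∈ t,
      (u : Mat N) * W * star (u : Mat N) ∈ t ∧ star (u : Mat N) * W * (u : Mat N) ∈ t :=
    fun u => Iff.rfl
  refine ⟨H, ?_, ?_, ?_⟩
  · have hcl : IsClosed (t : Set (Mat N)) := Submodule.closed_of_finiteDimensional t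
    have e : (H : Set (unitaryGroup (Fin N) ℂ)) = ⋂ W ∈ t,
        ({u : unitaryGroup (Fin N) ℂ | (u : Mat N) * W * star (u : Mat N) ∈ t} ∩
          {u : unitaryGroup (Fin N) ℂ | star (u : Mat N) * W * (u : Mat N) ∈ t}) := by
      ext u
      simp only [SetLike.mem_coe, hHmem, Set.mem_iInter, Set.mem_inter_iff, Set.mem_ofPred_eq]
    rw [e]
    refine isClosed_biInter fun W _ => IsClosed.inter ?_ ?_
    · exact hcl.preimage (((continuous_subtype_val.mul continuous_const)).mul
        continuous_subtype_val.star)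
    · exact hcl.preimage (((continuous_subtype_val.star.mul continuous_const)).mul
        continuous_subtype_val)
  · intro g hg
    obtain ⟨z, hz, hzg⟩ := exists_stable hG hbr (g := (g : Mat N)) ⟨g, hg, rfl⟩
    obtain ⟨_, ⟨h, hh, rfl⟩, h1, h2⟩ := maxAb_conj hG hbr ht hz
    refine ⟨h⁻¹, Δ.inv_mem hh, ?_⟩
    rw [inv_inv, hHmem]
    intro W hW
    have e : ((h⁻¹ * g * h : unitaryGroup (Fin N) ℂ) : Mat N) =
        star (h : Mat N) * (g : Mat N) * (h : Mat N) := rfl
    rw [e, star_mul, star_mul, star_star]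
    refine ⟨?_, ?_⟩
    · have := h1 _ (hzg _ (h2 W hW)).1
      have e2 : star (h : Mat N) * (g : Mat N) * (h : Mat N) * W *
          (star (h : Mat N) * (star (g : Mat N) * (h : Mat N))) =
          star (h : Mat N) * ((g : Mat N) * ((h : Mat N) * W * star (h : Mat N)) *
            star (g : Mat N)) * (h : Mat N) := by
        simp only [Matrix.mul_assoc]
      rw [e2]
      exact this
    · have := h1 _ (hzg _ (h2 W hW)).2
      have e2 : star (h : Mat N) * (star (g : Mat N) * (h : Mat N)) * W *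
          (star (h : Mat N) * (g : Mat N) * (h : Mat N)) =
          star (h : Mat N) * (star (g : Mat N) * ((h : Mat N) * W * star (h : Mat N)) *
            (g : Mat N)) * (h : Mat N) := by
        simp only [Matrix.mul_assoc]
      rw [e2]
      exact this
  · by_contra hcon
    push Not at hcon
    apply hnL
    have hInv : Inv (Gs Δ) t := by
      rintro _ ⟨u, hu, rfl⟩ W hW
      exact ((hHmem u).1 (hcon u hu) W hW).1
    have hXt : ∀ X ∈ L, X ∈ t := by
      intro X hX
      apply ht.self X hX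
      intro Y hY
      have h1 := bracket_mem hG hInv hX hY
      have h2 := ht.comm _ h1 _ hY
      have h3 : Y * (Y * X - X * Y) = (Y * X - X * Y) * Y := by
        have e1 : Y * X - X * Y = -(X * Y - Y * X) := by abel
        rw [e1, mul_neg, neg_mul, h2]
      exact (bracket_zero (skew_normal (hG.skew (ht.le hY))) h3).symm
    intro X hX Y hY
    exact ht.comm X (hXt X hX) Y (hXt Y hY)

section Top

variable {G : Type} [Group G] [TopologicalSpace G] [IsTopologicalGroup G] [CompactSpace G]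
  [T2Space G]

lemma normal_cc : (Subgroup.connectedComponentOfOne G).Normal := by
  refine ⟨fun n hn g => ?_⟩
  have h1 : Continuous fun x : G => g * x * g⁻¹ := by fun_prop
  have h2 := h1.image_connectedComponent_subset 1
  have h3 : g * n * g⁻¹ ∈ connectedComponent (g * 1 * g⁻¹) := h2 ⟨n, hn, rfl⟩
  rwa [mul_one, mul_inv_cancel] at h3

lemma td_quot : TotallyDisconnectedSpace (G ⧸ Subgroup.connectedComponentOfOne G) := by
  set G0 := Subgroup.connectedComponentOfOne G with hG0
  have : G0.Normal := normal_cc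
  have hfib : ∀ y : G ⧸ G0, IsConnected ((QuotientGroup.mk : G → G ⧸ G0) ⁻¹' {y}) := by
    intro y
    obtain ⟨a, rfl⟩ := QuotientGroup.mk_surjective y
    have h1 : (QuotientGroup.mk : G → G ⧸ G0) ⁻¹' {(a : G ⧸ G0)} =
        (fun x => a * x) '' connectedComponent (1 : G) := by
      ext x
      simp only [Set.mem_preimage, Set.mem_singleton_iff, Set.mem_image]
      constructor
      · intro hx
        refine ⟨a⁻¹ * x, ?_, by group⟩
        exact QuotientGroup.eq.1 hx.symm
      · rintro ⟨z, hz, rfl⟩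
        refine (QuotientGroup.eq.2 ?_).symm
        have : a⁻¹ * (a * z) = z := by group
        rw [this]; exact hz
    rw [h1]
    exact isConnected_connectedComponent.image _ (by fun_prop)
  have hco : Topology.IsQuotientMap (QuotientGroup.mk : G → G ⧸ G0) :=
    QuotientGroup.isQuotientMap_mk G0
  rw [totallyDisconnectedSpace_iff_connectedComponent_one]
  have h1 := hco.image_connectedComponent hfib 1
  have h2 : ((1 : G) : G ⧸ G0) = 1 := rfl
  rw [h2] at h1
  rw [← h1]
  ext y
  simp only [Set.mem_image, Set.mem_singleton_iff]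
  constructor
  · rintro ⟨x, hx, rfl⟩
    exact (QuotientGroup.eq_one_iff x).2 hx
  · rintro rfl
    exact ⟨1, mem_connectedComponent, rfl⟩

theorem forward (h : ∀ f : G → G,
    (Subgroup.closure (Set.range (fun x : G => f x * x * (f x)⁻¹))).topologicalClosure = ⊤) :
    ∃ N : Subgroup G, N.Normal ∧ IsClosed (N : Set G) ∧ IsConnected (N : Set G) ∧
      (∀ a ∈ N, ∀ b ∈ N, a * b = b * a) ∧ TotallyDisconnectedSpace (G ⧸ N) := by
  refine ⟨Subgroup.connectedComponentOfOne G, normal_cc, isClosed_connectedComponent,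
    isConnected_connectedComponent, ?_, td_quot⟩
  intro a ha b hb
  by_contra hab
  obtain ⟨r, ρ, hρ, hne⟩ := Pool.Agent.R557.KO.pw G (a * b) (b * a) hab
  have hc : IsClosed ((ρ.range : Subgroup (unitaryGroup (Fin r) ℂ)) :
      Set (unitaryGroup (Fin r) ℂ)) := by
    rw [MonoidHom.coe_range]
    exact (isCompact_range hρ).isClosed
  have hc₀ : IsClosed (((Subgroup.connectedComponentOfOne G).map ρ :
      Subgroup (unitaryGroup (Fin r) ℂ)) : Set (unitaryGroup (Fin r) ℂ)) := by
    rw [Subgroup.coe_map]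
    have h1 : IsClosed ((Subgroup.connectedComponentOfOne G : Subgroup G) : Set G) :=
      isClosed_connectedComponent
    exact (h1.isCompact.image hρ).isClosed
  have hconn : IsConnected (((Subgroup.connectedComponentOfOne G).map ρ :
      Subgroup (unitaryGroup (Fin r) ℂ)) : Set (unitaryGroup (Fin r) ℂ)) := by
    rw [Subgroup.coe_map]
    have h1 : IsConnected ((Subgroup.connectedComponentOfOne G : Subgroup G) : Set G) :=
      isConnected_connectedComponent
    exact h1.image _ hρ.continuousOn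
  obtain ⟨H, hH1, hH2, x, hx, hxH⟩ := exists_proper ρ.range
    ((Subgroup.connectedComponentOfOne G).map ρ) hc hc₀ hconn
    (by rintro _ ⟨y, _, rfl⟩; exact ⟨y, rfl⟩)
    ⟨ρ a, ⟨a, ha, rfl⟩, ρ b, ⟨b, hb, rfl⟩, by rwa [← map_mul, ← map_mul]⟩
  have hcl : IsClosed ((H.comap ρ : Subgroup G) : Set G) := hH1.preimage hρ
  have hconj : ∀ x : G, ∃ y : G, y * x * y⁻¹ ∈ H.comap ρ := by
    intro x
    obtain ⟨_, ⟨y, rfl⟩, hy⟩ := hH2 (ρ x) ⟨x, rfl⟩
    refine ⟨y, ?_⟩
    rw [Subgroup.mem_comap, map_mul, map_mul, map_inv]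
    exact hy
  choose f hf using hconj
  have h1 := h f
  have h2 : (Subgroup.closure (Set.range (fun x : G => f x * x * (f x)⁻¹))).topologicalClosure ≤
      H.comap ρ := by
    apply Subgroup.topologicalClosure_minimal _ _ hcl
    rw [Subgroup.closure_le]
    rintro _ ⟨x, rfl⟩
    exact hf x
  rw [h1, top_le_iff] at h2
  obtain ⟨y, rfl⟩ := hx
  apply hxH
  have h3 : y ∈ H.comap ρ := by rw [h2]; trivial
  exact h3

theorem backward (N : Subgroup G) (hN : N.Normal) (hNc : IsClosed (N : Set G))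
    (hab : ∀ a ∈ N, ∀ b ∈ N, a * b = b * a) (htd : TotallyDisconnectedSpace (G ⧸ N)) (f : G → G) :
    (Subgroup.closure (Set.range (fun x : G => f x * x * (f x)⁻¹))).topologicalClosure = ⊤ := by
  set K := (Subgroup.closure (Set.range (fun x : G => f x * x * (f x)⁻¹))).topologicalClosure
    with hK
  have hKc : IsClosed (K : Set G) := Subgroup.isClosed_topologicalClosure _
  have hKf : ∀ x, f x * x * (f x)⁻¹ ∈ K := fun x =>
    Subgroup.le_topologicalClosure _ (Subgroup.subset_closure ⟨x, rfl⟩)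
  -- the image of `K` in the profinite quotient
  have hD : K.map (QuotientGroup.mk' N) = ⊤ := by
    set D := K.map (QuotientGroup.mk' N) with hD
    have hDc : IsClosed (D : Set (G ⧸ N)) := by
      rw [hD, Subgroup.coe_map]
      exact (hKc.isCompact.image QuotientGroup.continuous_mk).isClosed
    rw [eq_top_iff]
    intro q _
    by_contra hq
    have hV : IsOpen {v : G ⧸ N | q * v ∉ D} :=
      (hDc.preimage (continuous_const_mul q)).isOpen_compl
    obtain ⟨U, hU⟩ := ProfiniteGrp.exist_openNormalSubgroup_sub_open_nhds_of_one hV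
      (by simpa using hq)
    have hfin : Finite ((G ⧸ N) ⧸ U.toSubgroup) :=
      Subgroup.quotient_finite_of_isOpen _ U.isOpen'
    have hnU : U.toSubgroup.Normal := U.isNormal'
    have hj := jordan (D.map (QuotientGroup.mk' U.toSubgroup)) (by
      intro x
      obtain ⟨x, rfl⟩ := QuotientGroup.mk_surjective x
      obtain ⟨x, rfl⟩ := QuotientGroup.mk_surjective x
      refine ⟨QuotientGroup.mk' U.toSubgroup (QuotientGroup.mk' N (f x)), ?_⟩
      refine ⟨QuotientGroup.mk' N (f x * x * (f x)⁻¹), ⟨_, hKf x, rfl⟩, ?_⟩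
      simp only [map_mul, map_inv]
      rfl)
    have h1 : QuotientGroup.mk' U.toSubgroup q ∈ D.map (QuotientGroup.mk' U.toSubgroup) := by
      rw [hj]; trivial
    obtain ⟨d, hd, hdq⟩ := h1
    have h2 : q⁻¹ * d ∈ U.toSubgroup := by
      have : (QuotientGroup.mk q : (G ⧸ N) ⧸ U.toSubgroup) = QuotientGroup.mk d := hdq.symm
      exact QuotientGroup.eq.1 this
    have h3 : q * (q⁻¹ * d) ∉ D := hU h2
    rw [mul_inv_cancel_left] at h3
    exact h3 hd
  have hKN : ∀ g : G, ∃ k ∈ K, ∃ n ∈ N, g = k * n := by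
    intro g
    have h1 : QuotientGroup.mk' N g ∈ K.map (QuotientGroup.mk' N) := by rw [hD]; trivial
    obtain ⟨k, hk, hkg⟩ := h1
    refine ⟨k, hk, k⁻¹ * g, ?_, by group⟩
    exact QuotientGroup.eq.1 hkg
  have hnorm : ∀ m ∈ K, m ∈ N → ∀ g : G, g * m * g⁻¹ ∈ K ∧ g * m * g⁻¹ ∈ N := by
    intro m hm hmN g
    refine ⟨?_, hN.conj_mem m hmN g⟩
    obtain ⟨k, hk, n, hn, rfl⟩ := hKN g
    have e : k * n * m * (k * n)⁻¹ = k * m * k⁻¹ := by
      have h1 : n * m * n⁻¹ = m := by rw [hab n hn m hmN]; group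
      calc k * n * m * (k * n)⁻¹ = k * (n * m * n⁻¹) * k⁻¹ := by group
        _ = k * m * k⁻¹ := by rw [h1]
    rw [e]
    exact K.mul_mem (K.mul_mem hk hm) (K.inv_mem hk)
  have hNK : ∀ m ∈ N, m ∈ K := by
    intro m hm
    have h1 := (hnorm _ (hKf m) (hN.conj_mem m hm (f m)) (f m)⁻¹).1
    have e : (f m)⁻¹ * (f m * m * (f m)⁻¹) * ((f m)⁻¹)⁻¹ = m := by group
    rwa [e] at h1
  rw [eq_top_iff]
  intro g _
  obtain ⟨k, hk, n, hn, rfl⟩ := hKN g
  exact K.mul_mem hk (hNK n hn)

end Top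

end Pool.Agent.N44.TIG
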